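import Mathlib

/-!
# Voronoi cells of a net in a graph

Helper file for `MP_bafc89_co`.  For every graph `G` and every `R` there are a set `N` of vertices
with pairwise distance `> 2R`, and a map `root : V → V` onto `N` whose fibres are connected, contain
the balls of radius `R` around the points of `N`, and have radius at most `2R`.
-/

set_option autoImplicit false

namespace Pool.Agent.Lib.MPbafc89.Net

open SimpleGraph

universe u

variable {V : Type u} (G : SimpleGraph V)

/-- a maximal `r`-separated set -/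
theorem exists_net (r : ℕ) : ∃ N : Set V,
    (∀ x ∈ N, ∀ y ∈ N, x ≠ y → (r : ℕ∞) < G.edist x y) ∧
    ∀ v, ∃ c ∈ N, G.edist v c ≤ r := by
  obtain ⟨N, hN⟩ := zorn_subset
    {N : Set V | ∀ x ∈ N, ∀ y ∈ N, x ≠ y → (r : ℕ∞) < G.edist x y} (by
      intro c hc hchain
      refine ⟨⋃₀ c, ?_, fun s hs => Set.subset_sUnion_of_mem hs⟩
      rintro x ⟨s, hs, hxs⟩ y ⟨t, ht, hyt⟩ hxy
      rcases hchain.total hs ht with h | h
      · exact hc ht x (h hxs) y hyt hxy
      · exact hc hs x hxs y (h hyt) hxy)
  refine ⟨N, hN.prop, fun v => ?_⟩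
  by_contra hcon
  push Not at hcon
  have hv : v ∉ N := fun hv => by
    have := hcon v hv
    simp at this
  have hins : insert v N ∈
      {N : Set V | ∀ x ∈ N, ∀ y ∈ N, x ≠ y → (r : ℕ∞) < G.edist x y} := by
    rintro x hx y hy hxy
    rcases hx with rfl | hx
    · rcases hy with rfl | hy
      · exact absurd rfl hxy
      · exact hcon y hy
    · rcases hy with rfl | hy
      · rw [SimpleGraph.edist_comm]
        exact hcon x hx
      · exact hN.prop x hx y hy hxy
  have := hN.le_of_ge hins (Set.subset_insert v N)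
  exact hv (this (Set.mem_insert v N))

/-- Voronoi cells -/
theorem exists_root (R : ℕ) : ∃ (N : Set V) (root : V → V),
    (∀ v, root v ∈ N) ∧ (∀ c ∈ N, root c = c) ∧
    (∀ v, G.edist v (root v) ≤ (2 * R : ℕ)) ∧
    (∀ c ∈ N, ∀ v, G.edist v c ≤ R → root v = c) ∧
    (∀ c ∈ N, ∀ v, ∀ hv : root v = c, ∀ hc : root c = c,
      (G.induce {x | root x = c}).Reachable ⟨v, hv⟩ ⟨c, hc⟩) := by
  classical
  obtain ⟨N, hsep, hcov⟩ := exists_net G (2 * R)
  have hP : ∀ v, ∃ n : ℕ, ∃ c ∈ N, ∃ w : G.Walk v c, w.length = n := by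
    intro v
    obtain ⟨c, hc, hd⟩ := hcov v
    have hne : G.edist v c ≠ ⊤ := ne_top_of_le_ne_top (ENat.natCast_ne_top _) hd
    obtain ⟨w, hw⟩ := exists_walk_of_edist_ne_top hne
    exact ⟨w.length, c, hc, w, rfl⟩
  let D : V → ℕ := fun v => Nat.find (hP v)
  have hD : ∀ v, ∃ c ∈ N, ∃ w : G.Walk v c, w.length = D v := fun v => Nat.find_spec (hP v)
  have hDle : ∀ v c, c ∈ N → ∀ w : G.Walk v c, D v ≤ w.length := fun v c hc w =>
    Nat.find_min' (hP v) ⟨c, hc, w, rfl⟩
  have hD2 : ∀ v, D v ≤ 2 * R := by
    intro v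
    obtain ⟨c, hc, hd⟩ := hcov v
    have hne : G.edist v c ≠ ⊤ := ne_top_of_le_ne_top (ENat.natCast_ne_top _) hd
    obtain ⟨w, hw⟩ := exists_walk_of_edist_ne_top hne
    have h1 := hDle v c hc w
    have h2 : (w.length : ℕ∞) ≤ (2 * R : ℕ) := by rw [hw]; exact hd
    have h3 : w.length ≤ 2 * R := by exact_mod_cast h2
    omega
  have hD0 : ∀ v, D v = 0 → v ∈ N := by
    intro v hv
    obtain ⟨c, hc, w, hw⟩ := hD v
    rw [hv] at hw
    have := SimpleGraph.Walk.eq_of_length_eq_zero hw
    subst this
    exact hc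
  have hN0 : ∀ c ∈ N, D c = 0 := by
    intro c hc
    have := hDle c c hc SimpleGraph.Walk.nil
    simpa using this
  have hpar : ∀ v, ∃ u, D v ≠ 0 → G.Adj v u ∧ D u + 1 = D v := by
    intro v
    by_cases hv : D v = 0
    · exact ⟨v, fun h => absurd hv h⟩
    · obtain ⟨c, hc, w, hw⟩ := hD v
      cases w with
      | nil => simp at hw; omega
      | @cons _ u _ h p =>
        refine ⟨u, fun _ => ⟨h, ?_⟩⟩
        have h1 := hDle u c hc p
        obtain ⟨c', hc', w', hw'⟩ := hD u
        have h2 := hDle v c' hc' (SimpleGraph.Walk.cons h w')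
        rw [SimpleGraph.Walk.length_cons] at h2 hw
        omega
  choose par hpar using hpar
  let root : V → V := fun v => par^[D v] v
  have hr0 : ∀ v, D v = 0 → root v = v := by
    intro v hv
    show par^[D v] v = v
    rw [hv]; rfl
  have hr1 : ∀ v, D v ≠ 0 → root v = root (par v) := by
    intro v hv
    show par^[D v] v = par^[D (par v)] (par v)
    have := (hpar v hv).2
    rw [← this, Function.iterate_succ_apply]
  -- root v in N, walk of length D v
  have hrN : ∀ n v, D v = n → root v ∈ N ∧ G.edist v (root v) ≤ n := by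
    intro n
    induction n with
    | zero =>
      intro v hv
      rw [hr0 v hv]
      exact ⟨hD0 v hv, by simp⟩
    | succ n ih =>
      intro v hv
      have hv' : D v ≠ 0 := by omega
      obtain ⟨hadj, hDp⟩ := hpar v hv'
      obtain ⟨h1, h2⟩ := ih (par v) (by omega)
      rw [hr1 v hv']
      refine ⟨h1, ?_⟩
      calc G.edist v (root (par v)) ≤ G.edist v (par v) + G.edist (par v) (root (par v)) :=
            SimpleGraph.edist_triangle
        _ ≤ 1 + (n : ℕ∞) := by
            gcongr
            exact le_of_eq (edist_eq_one_iff_adj.mpr hadj)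
        _ = ((n + 1 : ℕ) : ℕ∞) := by push_cast; ring
  have hrc : ∀ c ∈ N, root c = c := fun c hc => hr0 c (hN0 c hc)
  refine ⟨N, root, fun v => (hrN (D v) v rfl).1, hrc, ?_, ?_, ?_⟩
  · intro v
    refine (hrN (D v) v rfl).2.trans ?_
    exact_mod_cast hD2 v
  · intro c hc v hv
    have hne : G.edist v c ≠ ⊤ := ne_top_of_le_ne_top (ENat.natCast_ne_top _) hv
    obtain ⟨w, hw⟩ := exists_walk_of_edist_ne_top hne
    have h1 := hDle v c hc w
    have h2 : (w.length : ℕ∞) ≤ (R : ℕ) := by rw [hw]; exact hv
    have h3 : w.length ≤ R := by exact_mod_cast h2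
    obtain ⟨h4, h5⟩ := hrN (D v) v rfl
    by_contra hcon
    have h6 := hsep (root v) h4 c hc hcon
    have h7 : G.edist (root v) c ≤ (2 * R : ℕ) := by
      calc G.edist (root v) c ≤ G.edist (root v) v + G.edist v c := SimpleGraph.edist_triangle
        _ ≤ (R : ℕ∞) + R := by
            gcongr
            rw [SimpleGraph.edist_comm]
            refine h5.trans ?_
            exact_mod_cast (h1.trans h3)
        _ = ((2 * R : ℕ) : ℕ∞) := by push_cast; ring
    exact absurd h6 (not_lt.mpr h7)
  · intro c hc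
    have key : ∀ n v, D v = n → ∀ hv : root v = c, ∀ hc' : root c = c,
        (G.induce {x | root x = c}).Reachable ⟨v, hv⟩ ⟨c, hc'⟩ := by
      intro n
      induction n with
      | zero =>
        intro v hv hvc hc'
        have h1 := hr0 v hv
        have h2 : v = c := h1.symm.trans hvc
        subst h2
        exact SimpleGraph.Reachable.refl _
      | succ n ih =>
        intro v hv hvc hc'
        have hv' : D v ≠ 0 := by omega
        obtain ⟨hadj, hDp⟩ := hpar v hv'
        have hp : root (par v) = c := (hr1 v hv').symm.trans hvc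
        have h1 := ih (par v) (by omega) hp hc'
        refine SimpleGraph.Reachable.trans (SimpleGraph.Adj.reachable ?_) h1
        simpa using hadj
    intro v hv hc'
    exact key (D v) v rfl hv hc'

end Pool.Agent.Lib.MPbafc89.Net
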