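import Pool.Agent.Lib.MP_bafc89_co.Net

/-!
# The quotient of a graph by Voronoi cells, and long induced paths inside cells

Helper file for `MP_bafc89_co`.
-/

set_option autoImplicit false

namespace Pool.Agent.Lib.MPbafc89.Net

open SimpleGraph

universe u

variable {V : Type u}

/-- the properties of a net with cells, `R` = inner radius -/
structure Cells (G : SimpleGraph V) (R : ℕ) (N : Set V) (root : V → V) : Prop where
  mem : ∀ v, root v ∈ N
  fix : ∀ c ∈ N, root c = c
  near : ∀ v, G.edist v (root v) ≤ (2 * R : ℕ)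
  ball : ∀ c ∈ N, ∀ v, G.edist v c ≤ R → root v = c
  conn : ∀ c ∈ N, ∀ v, ∀ hv : root v = c, ∀ hc : root c = c,
      (G.induce {x | root x = c}).Reachable ⟨v, hv⟩ ⟨c, hc⟩

theorem exists_cells (G : SimpleGraph V) (R : ℕ) :
    ∃ (N : Set V) (root : V → V), Cells G R N root := by
  obtain ⟨N, root, h1, h2, h3, h4, h5⟩ := exists_root G R
  exact ⟨N, root, h1, h2, h3, h4, h5⟩

/-- the quotient graph -/
def quot (G : SimpleGraph V) (N : Set V) (root : V → V) : SimpleGraph N where
  Adj c c' := c ≠ c' ∧ ∃ x y, root x = (c : V) ∧ root y = (c' : V) ∧ G.Adj x y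
  symm := ⟨fun _ _ ⟨h, x, y, hx, hy, ha⟩ => ⟨h.symm, y, x, hy, hx, ha.symm⟩⟩
  loopless := ⟨fun _ h => h.1 rfl⟩

variable {G : SimpleGraph V} {R : ℕ} {N : Set V} {root : V → V}

/-- the projection -/
def proj (h : Cells G R N root) (v : V) : N := ⟨root v, h.mem v⟩

theorem proj_walk (h : Cells G R N root) {x y : V} (w : G.Walk x y) :
    (quot G N root).edist (proj h x) (proj h y) ≤ w.length := by
  induction w with
  | nil => simp
  | @cons a b c hab p ih =>
    have h1 : (quot G N root).edist (proj h a) (proj h b) ≤ 1 := by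
      rw [edist_le_one_iff_adj_or_eq]
      by_cases he : proj h a = proj h b
      · exact Or.inr he
      · exact Or.inl ⟨he, a, b, rfl, rfl, hab⟩
    calc (quot G N root).edist (proj h a) (proj h c)
        ≤ (quot G N root).edist (proj h a) (proj h b) +
          (quot G N root).edist (proj h b) (proj h c) := SimpleGraph.edist_triangle
      _ ≤ 1 + p.length := by gcongr
      _ = ((SimpleGraph.Walk.cons hab p).length : ℕ∞) := by
          rw [SimpleGraph.Walk.length_cons]; push_cast; ring

theorem edist_proj_le (h : Cells G R N root) (x y : V) :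
    (quot G N root).edist (proj h x) (proj h y) ≤ G.edist x y := by
  by_cases hr : G.edist x y = ⊤
  · rw [hr]; exact le_top
  · obtain ⟨w, hw⟩ := exists_walk_of_edist_ne_top hr
    rw [← hw]
    exact proj_walk h w

theorem edist_adj (h : Cells G R N root) {c c' : N} (hc : (quot G N root).Adj c c') :
    G.edist (c : V) (c' : V) ≤ (4 * R + 1 : ℕ) := by
  obtain ⟨-, x, y, hx, hy, ha⟩ := hc
  have h1 := h.near x
  have h2 := h.near y
  rw [hx] at h1
  rw [hy] at h2
  calc G.edist (c : V) (c' : V) ≤ G.edist (c : V) x + G.edist x (c' : V) :=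
        SimpleGraph.edist_triangle
    _ ≤ G.edist (c : V) x + (G.edist x y + G.edist y (c' : V)) := by
        gcongr
        exact SimpleGraph.edist_triangle
    _ ≤ (2 * R : ℕ) + (1 + (2 * R : ℕ)) := by
        gcongr
        · rw [SimpleGraph.edist_comm]; exact h1
        · exact le_of_eq (edist_eq_one_iff_adj.mpr ha)
    _ = ((4 * R + 1 : ℕ) : ℕ∞) := by push_cast; ring

theorem walk_quot (h : Cells G R N root) {c c' : N} (w : (quot G N root).Walk c c') :
    G.edist (c : V) (c' : V) ≤ (4 * R + 1 : ℕ) * w.length := by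
  induction w with
  | nil => simp
  | @cons a b c hab p ih =>
    calc G.edist (a : V) (c : V) ≤ G.edist (a : V) (b : V) + G.edist (b : V) (c : V) :=
          SimpleGraph.edist_triangle
      _ ≤ (4 * R + 1 : ℕ) + (4 * R + 1 : ℕ) * p.length := by
          gcongr
          exact edist_adj h hab
      _ = (4 * R + 1 : ℕ) * ((SimpleGraph.Walk.cons hab p).length : ℕ∞) := by
          rw [SimpleGraph.Walk.length_cons]; push_cast; ring

theorem edist_le_proj (h : Cells G R N root) (x y : V) :
    G.edist x y ≤ (4 * R + 1 : ℕ) * (quot G N root).edist (proj h x) (proj h y) +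
      (4 * R : ℕ) := by
  by_cases hr : (quot G N root).edist (proj h x) (proj h y) = ⊤
  · rw [hr, ENat.mul_top (by positivity)]
    simp
  · obtain ⟨w, hw⟩ := exists_walk_of_edist_ne_top hr
    have h1 := walk_quot h w
    rw [hw] at h1
    have hx := h.near x
    have hy := h.near y
    calc G.edist x y ≤ G.edist x (root x) + G.edist (root x) y := SimpleGraph.edist_triangle
      _ ≤ G.edist x (root x) + (G.edist (root x) (root y) + G.edist (root y) y) := by
          gcongr
          exact SimpleGraph.edist_triangle
      _ ≤ (2 * R : ℕ) + ((4 * R + 1 : ℕ) * (quot G N root).edist (proj h x) (proj h y) +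
            (2 * R : ℕ)) := by
          gcongr
          · exact h1
          · rw [SimpleGraph.edist_comm]; exact hy
      _ = _ := by push_cast; ring

theorem proj_surj (h : Cells G R N root) (c : N) : proj h (c : V) = c :=
  Subtype.ext (h.fix c c.2)

/-- long induced paths from the centre of a cell to a neighbouring cell -/
theorem exists_path (h : Cells G R N root) {c c' : N} (hc : (quot G N root).Adj c c') :
    ∃ (γ : ℕ → V) (L : ℕ) (y : V), R ≤ L ∧ (∀ j ≤ L, root (γ j) = (c : V)) ∧
      (∀ i j, i ≤ L → j ≤ L → γ i = γ j → i = j) ∧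
      (∀ i j, i ≤ L → j ≤ L → G.Adj (γ i) (γ j) → i = j + 1 ∨ j = i + 1) ∧
      (∀ j < L, G.Adj (γ j) (γ (j + 1))) ∧ root y = (c' : V) ∧ G.Adj (γ L) y ∧
      (∀ j < R, ∀ z, G.Adj (γ j) z → root z = (c : V)) := by
  obtain ⟨hne, x, y, hx, hy, ha⟩ := hc
  have hfix : root (c : V) = (c : V) := h.fix c c.2
  set H := G.induce {v | root v = (c : V)} with hH
  have hreach : H.Reachable ⟨(c : V), hfix⟩ ⟨x, hx⟩ := (h.conn c c.2 x hx hfix).symm
  obtain ⟨w, hw⟩ := hreach.exists_walk_length_eq_dist
  -- distances from c
  have hdist : ∀ j ≤ w.length, H.dist ⟨(c : V), hfix⟩ (w.getVert j) = j := by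
    intro j hj
    have h1 : H.dist ⟨(c : V), hfix⟩ (w.getVert j) ≤ j := by
      refine (SimpleGraph.dist_le (w.take j)).trans ?_
      rw [SimpleGraph.Walk.take_length]
      exact min_le_left _ _
    have h2 : H.dist (w.getVert j) ⟨x, hx⟩ ≤ w.length - j := by
      refine (SimpleGraph.dist_le (w.drop j)).trans ?_
      rw [SimpleGraph.Walk.drop_length]
    have h3 := (w.take j).reachable.dist_triangle_left (⟨x, hx⟩ : {v | root v = (c : V)})
    omega
  have hcell : ∀ j, root ((w.getVert j : {v | root v = (c : V)}) : V) = (c : V) :=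
    fun j => (w.getVert j).2
  -- G-distance from c
  have hG : ∀ j ≤ w.length, G.edist ((w.getVert j : {v | root v = (c : V)}) : V) (c : V) ≤ j := by
    intro j hj
    have h1 : G.edist (c : V) ((w.getVert j : {v | root v = (c : V)}) : V) ≤ j := by
      refine (SimpleGraph.edist_le ((w.take j).map (SimpleGraph.Embedding.induce _).toHom)).trans ?_
      rw [SimpleGraph.Walk.length_map, SimpleGraph.Walk.take_length]
      exact_mod_cast min_le_left _ _
    rw [SimpleGraph.edist_comm]; exact h1
  have hball : ∀ j ≤ w.length, j < R → ∀ z,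
      G.Adj ((w.getVert j : {v | root v = (c : V)}) : V) z → root z = (c : V) := by
    intro j hj hjR z hz
    refine h.ball c c.2 z ?_
    calc G.edist z (c : V) ≤ G.edist z ((w.getVert j : {v | root v = (c : V)}) : V) +
          G.edist ((w.getVert j : {v | root v = (c : V)}) : V) (c : V) :=
            SimpleGraph.edist_triangle
      _ ≤ 1 + j := by
          gcongr
          · exact le_of_eq (edist_eq_one_iff_adj.mpr hz.symm)
          · exact hG j hj
      _ ≤ R := by exact_mod_cast (by omega : 1 + j ≤ R)
  have hlast : ((w.getVert w.length : {v | root v = (c : V)}) : V) = x := by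
    rw [SimpleGraph.Walk.getVert_length]
  have hRL : R ≤ w.length := by
    by_contra hcon
    push Not at hcon
    have := hball w.length le_rfl hcon y (by rw [hlast]; exact ha)
    exact hne (Subtype.ext (this.symm.trans hy))
  refine ⟨fun j => ((w.getVert j : {v | root v = (c : V)}) : V), w.length, y, hRL,
    fun j _ => hcell j, ?_, ?_, ?_, hy, ?_, ?_⟩
  · intro i j hi hj hij
    have h1 := hdist i hi
    have h2 := hdist j hj
    have h3 : w.getVert i = w.getVert j := Subtype.ext hij
    rw [h3] at h1
    omega
  · intro i j hi hj hij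
    have h1 := hdist i hi
    have h2 := hdist j hj
    have hadj : H.Adj (w.getVert i) (w.getVert j) := hij
    have h3 := hadj.diff_dist_adj (u := (⟨(c : V), hfix⟩ : {v | root v = (c : V)}))
    have h4 : i ≠ j := by
      rintro rfl
      exact hadj.ne rfl
    omega
  · intro j hj
    exact w.adj_getVert_succ hj
  · show G.Adj ((w.getVert w.length : {v | root v = (c : V)}) : V) y
    rw [hlast]; exact ha
  · intro j hj z hz
    exact hball j (by omega) hj z hz

end Pool.Agent.Lib.MPbafc89.Net
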